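import Pool.Agent.MP_3a8b9a_co.Defs

open MeasureTheory

namespace Pool.Agent.MP_3a8b9a_co

/-- The counterexample bigraph. -/
def GG : Bigraph where
  V₁ := Fin 9
  V₂ := Fin 9
  E := {(0, 1), (0, 2), (0, 3), (0, 4), (0, 5), (0, 6),
    (1, 1), (2, 2), (3, 3), (4, 4), (5, 5), (6, 6),
    (1, 0), (2, 0), (3, 0), (4, 0), (5, 0), (6, 0),
    (7, 1), (8, 1), (8, 7), (2, 7), (2, 8), (7, 8)}

/-- The bags: `0` is the centre, `1, 2` share `p, q` with it, `3` shares the crossing diagonal. -/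
def bagL : Fin 4 → List (Fin 9 ⊕ Fin 9) :=
  ![[Sum.inl 0, Sum.inl 1, Sum.inl 2, Sum.inr 0, Sum.inr 1, Sum.inr 2],
    [Sum.inl 0, Sum.inl 3, Sum.inl 4, Sum.inr 0, Sum.inr 3, Sum.inr 4],
    [Sum.inl 0, Sum.inl 5, Sum.inl 6, Sum.inr 0, Sum.inr 5, Sum.inr 6],
    [Sum.inl 2, Sum.inl 7, Sum.inl 8, Sum.inr 1, Sum.inr 7, Sum.inr 8]]

def bag (i : Fin 4) : Finset GG.Vert := (bagL i).toFinset

theorem bag_injective : Function.Injective bag := by decide

theorem bag_cover : ∀ v : GG.Vert, ∃ i, v ∈ bag i := by decide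

set_option maxRecDepth 100000 in
theorem bag_edge : ∀ v w : GG.Vert, GG.Adj v w → ∃ i, v ∈ bag i ∧ w ∈ bag i := by decide

theorem relCore_of_degree {G : Bigraph} {U : Finset G.Vert}
    (h : ∀ v ∈ U, 2 ≤ (U.filter fun w => G.Adj v w).card) (S : Finset G.Vert) :
    G.relCore U S = U := by
  have h1 : G.peel S U = U := by
    rw [Bigraph.peel, Finset.filter_eq_self]
    intro v hv
    exact Or.inr (h v hv)
  exact Function.iterate_fixed h1 _

set_option maxRecDepth 100000 in
theorem bag_degree : ∀ i : Fin 4, ∀ v ∈ bag i,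
    2 ≤ ((bag i).filter fun w => GG.Adj v w).card := by decide

theorem relCore_bag (i : Fin 4) (S : Finset GG.Vert) : GG.relCore (bag i) S = bag i :=
  relCore_of_degree (bag_degree i) S

/-- The star with centre `0`. -/
def star : SimpleGraph (Fin 4) where
  Adj i j := (i = 0 ∧ j ≠ 0) ∨ (j = 0 ∧ i ≠ 0)
  symm := ⟨by
    rintro i j (h | h)
    · exact Or.inr h
    · exact Or.inl h⟩
  loopless := ⟨by
    rintro i (⟨h, h'⟩ | ⟨h, h'⟩)
    · exact h' h
    · exact h' h⟩

instance : DecidableRel star.Adj := fun i j =>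
  inferInstanceAs (Decidable ((i = 0 ∧ j ≠ 0) ∨ (j = 0 ∧ i ≠ 0)))

theorem star_connected : star.Connected := by
  have h : ∀ i, star.Reachable 0 i := by
    intro i
    by_cases hi : i = 0
    · rw [hi]
    · exact SimpleGraph.Adj.reachable (Or.inl ⟨rfl, hi⟩)
  exact { preconnected := fun i j => (h i).symm.trans (h j), nonempty := ⟨0⟩ }

theorem star_isTree : star.IsTree := by
  rw [SimpleGraph.isTree_iff_connected_and_card]
  refine ⟨star_connected, ?_⟩
  rw [Nat.card_eq_fintype_card, Nat.card_eq_fintype_card]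
  decide

theorem star_support {i j : Fin 4} (p : star.Walk i j) (hp : p.IsPath) {k : Fin 4}
    (hk : k ∈ p.support) : k = i ∨ k = j ∨ (k = 0 ∧ i ≠ j) := by
  have hu : ∀ q : star.Walk i j, q.IsPath → p = q := fun q hq =>
    congrArg Subtype.val ((star_isTree.isAcyclic.subsingleton_path i j).elim ⟨p, hp⟩ ⟨q, hq⟩)
  by_cases hij : i = j
  · subst hij
    have := hu SimpleGraph.Walk.nil SimpleGraph.Walk.IsPath.nil
    rw [this] at hk
    simp at hk
    exact Or.inl hk
  · by_cases hadj : star.Adj i j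
    · have := hu (SimpleGraph.Walk.cons hadj SimpleGraph.Walk.nil) (by simp [hij])
      rw [this] at hk
      simp at hk
      rcases hk with h | h
      · exact Or.inl h
      · exact Or.inr (Or.inl h)
    · have gen : ∀ i j : Fin 4, ¬ i = j → ¬ star.Adj i j → i ≠ 0 ∧ j ≠ 0 := by decide
      have h0 : i ≠ 0 ∧ j ≠ 0 := gen i j hij hadj
      have h1 : star.Adj i 0 := Or.inr ⟨rfl, h0.1⟩
      have h2 : star.Adj 0 j := Or.inl ⟨rfl, h0.2⟩
      have := hu (SimpleGraph.Walk.cons h1 (SimpleGraph.Walk.cons h2 SimpleGraph.Walk.nil))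
        (by simp [hij, h0.1, Ne.symm h0.2])
      rw [this] at hk
      simp at hk
      rcases hk with h | h | h
      · exact Or.inl h
      · exact Or.inr (Or.inr ⟨h, hij⟩)
      · exact Or.inr (Or.inl h)

theorem bag_path : ∀ (i j k : Fin 4) (p : star.Walk i j), p.IsPath → k ∈ p.support →
    bag i ∩ bag j ⊆ bag k := by
  intro i j k p hp hk
  rcases star_support p hp hk with h | h | ⟨h, h'⟩
  · rw [h]; exact Finset.inter_subset_left
  · rw [h]; exact Finset.inter_subset_right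
  · subst h
    clear hk hp p
    revert i j
    decide

theorem isoFixing_of_perm {G : Bigraph} {A B S : Finset G.Vert} (e : G.Vert ≃ G.Vert)
    (h1 : ∀ v, v ∈ A ↔ e v ∈ B) (h2 : ∀ v, (e v).isLeft = v.isLeft)
    (h3 : ∀ v ∈ A, ∀ w ∈ A, (G.Adj (e v) (e w) ↔ G.Adj v w)) (h4 : ∀ v ∈ S, e v = v) :
    G.IsoFixing A B S :=
  ⟨e.subtypeEquiv h1, fun v => h2 v.1, fun v w => h3 v.1 v.2 w.1 w.2, fun v hv => h4 v.1 hv⟩

/-- the reflections -/
def reflP : Fin 4 → (GG.Vert ≃ GG.Vert) :=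
  ![Equiv.refl _,
    Equiv.sumCongr (Equiv.swap (1 : Fin 9) 3 * Equiv.swap 2 4)
      (Equiv.swap (1 : Fin 9) 3 * Equiv.swap 2 4),
    Equiv.sumCongr (Equiv.swap (1 : Fin 9) 5 * Equiv.swap 2 6)
      (Equiv.swap (1 : Fin 9) 5 * Equiv.swap 2 6),
    Equiv.sumCongr (Equiv.swap (0 : Fin 9) 7 * Equiv.swap 1 8)
      (Equiv.swap (0 : Fin 9) 7 * Equiv.swap 2 8)]

theorem reflP_side (i : Fin 4) (v : GG.Vert) : (reflP i v).isLeft = v.isLeft := by
  fin_cases i <;> rcases v with v | v <;> rfl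

set_option maxRecDepth 100000 in
theorem reflP_mem : ∀ i : Fin 4, ∀ v : GG.Vert, (v ∈ bag 0 ↔ reflP i v ∈ bag i) := by decide

set_option maxRecDepth 100000 in
theorem reflP_mem' : ∀ i : Fin 4, ∀ v : GG.Vert, (v ∈ bag i ↔ reflP i v ∈ bag 0) := by decide

set_option maxRecDepth 100000 in
theorem reflP_adj : ∀ i : Fin 4, ∀ v ∈ bag 0, ∀ w ∈ bag 0,
    (GG.Adj (reflP i v) (reflP i w) ↔ GG.Adj v w) := by decide

set_option maxRecDepth 100000 in
theorem reflP_adj' : ∀ i : Fin 4, ∀ v ∈ bag i, ∀ w ∈ bag i,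
    (GG.Adj (reflP i v) (reflP i w) ↔ GG.Adj v w) := by decide

set_option maxRecDepth 100000 in
theorem reflP_fix : ∀ i : Fin 4, ∀ v ∈ bag 0 ∩ bag i, reflP i v = v := by decide

theorem bag_reflective (i j : Fin 4) (h : star.Adj i j) :
    GG.IsoFixing (GG.relCore (bag i) (bag i ∩ bag j)) (GG.relCore (bag j) (bag i ∩ bag j))
      (bag i ∩ bag j) := by
  rw [relCore_bag, relCore_bag]
  rcases h with ⟨rfl, -⟩ | ⟨rfl, -⟩
  · exact isoFixing_of_perm (reflP j) (reflP_mem j) (reflP_side j) (reflP_adj j) (reflP_fix j)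
  · rw [Finset.inter_comm]
    exact isoFixing_of_perm (reflP i) (reflP_mem' i) (reflP_side i) (reflP_adj' i) (reflP_fix i)

/-- The reflective tree decomposition. -/
def TT : ReflectiveTreeDecomposition GG where
  ι := Fin 4
  bag := bag
  bag_injective := bag_injective
  tree := star
  isTree := star_isTree
  cover := bag_cover
  edge := bag_edge
  path := bag_path
  reflective := bag_reflective

/-- a parent function -/
def par : GG.Vert → GG.Vert :=
  (Sum.elim ![Sum.inl 0, Sum.inr 1, Sum.inr 2, Sum.inr 3, Sum.inr 4, Sum.inr 5, Sum.inr 6,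
      Sum.inr 1, Sum.inr 1]
      ![Sum.inl 1, Sum.inl 0, Sum.inl 0, Sum.inl 0, Sum.inl 0, Sum.inl 0, Sum.inl 0, Sum.inl 2,
        Sum.inl 2] : Fin 9 ⊕ Fin 9 → Fin 9 ⊕ Fin 9)

/-- a root -/
def root : GG.Vert := (Sum.inl 0 : Fin 9 ⊕ Fin 9)

theorem par_adj : ∀ v : GG.Vert, par v = v ∨ GG.Adj v (par v) := by decide

theorem par_root : ∀ v : GG.Vert, par (par (par v)) = root := by decide

/-- The graph is connected. -/
theorem GG_connected : GG.toSimpleGraph.Connected := by
  have adj : ∀ v w : GG.Vert, GG.Adj v w → GG.toSimpleGraph.Reachable v w := fun v w h =>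
    SimpleGraph.Adj.reachable h
  have h3 : ∀ v : GG.Vert, GG.toSimpleGraph.Reachable v (par v) := by
    intro v
    rcases par_adj v with h | h
    · rw [h]
    · exact adj _ _ h
  have h4 : ∀ v : GG.Vert, GG.toSimpleGraph.Reachable v root := by
    intro v
    rw [← par_root v]
    exact ((h3 v).trans (h3 _)).trans (h3 _)
  exact { preconnected := fun v w => (h4 v).trans (h4 w).symm, nonempty := ⟨root⟩ }

/-- The centre and the two bags sharing `p, q` with it span a subtree. -/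
theorem subtree_connected : (star.induce ({0, 1, 2} : Set (Fin 4))).Connected := by
  have h : ∀ i : ({0, 1, 2} : Set (Fin 4)),
      (star.induce ({0, 1, 2} : Set (Fin 4))).Reachable ⟨0, by simp⟩ i := by
    rintro ⟨i, hi⟩
    by_cases h0 : i = 0
    · subst h0; rfl
    · apply SimpleGraph.Adj.reachable
      exact Or.inl ⟨rfl, h0⟩
  exact { preconnected := fun i j => (h i).symm.trans (h j), nonempty := ⟨⟨0, by simp⟩⟩ }

end Pool.Agent.MP_3a8b9a_co
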