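import Pool.Agent.MP_3a8b9a_co.Finite
import Pool.Agent.MP_3a8b9a_co.Example

open MeasureTheory

namespace Pool.Agent.MP_3a8b9a_co

section

variable {S : Type} [Fintype S] [DecidableEq S]

/-- the density of paths of length three -/
def PP (m : S → ℝ) (W : S → S → ℝ) (x y : S) : ℝ :=
  ∑ c : S × S, m c.1 * m c.2 * (W x c.2 * W c.1 c.2 * W c.1 y)

/-- the density of pairs of paths of length two -/
def CC (m : S → ℝ) (W : S → S → ℝ) (x0 x2 y0 y1 : S) : ℝ :=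
  ∑ c : S × S, m c.1 * m c.2 * (W c.1 y1 * W c.1 y0 * (W x0 c.2 * W x2 c.2))

/-- the edges, as a list -/
def edgeL : List (Fin 9 × Fin 9) :=
  [(0, 1), (0, 2), (0, 3), (0, 4), (0, 5), (0, 6),
    (1, 1), (2, 2), (3, 3), (4, 4), (5, 5), (6, 6),
    (1, 0), (2, 0), (3, 0), (4, 0), (5, 0), (6, 0),
    (7, 1), (8, 1), (8, 7), (2, 7), (2, 8), (7, 8)]

theorem edgeL_eq : @Eq (Finset (Fin 9 × Fin 9)) GG.E edgeL.toFinset := by rfl

theorem edgeL_nodup : edgeL.Nodup := by decide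

theorem prod_GG (W : S → S → ℝ) (x y : Fin 9 → S) : ∏ e ∈ GG.E, W (x e.1) (y e.2)
    = W (x 0) (y 1) * (W (x 0) (y 2) * (W (x 0) (y 3) * (W (x 0) (y 4) * (W (x 0) (y 5) * (
      W (x 0) (y 6) * (W (x 1) (y 1) * (W (x 2) (y 2) * (W (x 3) (y 3) * (W (x 4) (y 4) * (
      W (x 5) (y 5) * (W (x 6) (y 6) * (W (x 1) (y 0) * (W (x 2) (y 0) * (W (x 3) (y 0) * (
      W (x 4) (y 0) * (W (x 5) (y 0) * (W (x 6) (y 0) * (W (x 7) (y 1) * (W (x 8) (y 1) * (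
      W (x 8) (y 7) * (W (x 2) (y 7) * (W (x 2) (y 8) * (W (x 7) (y 8)))))))))))))))))))))))) := by
  have h : ∏ e ∈ GG.E, W (x e.1) (y e.2) = (edgeL.map fun e => W (x e.1) (y e.2)).prod := by
    rw [← List.prod_toFinset _ edgeL_nodup, ← edgeL_eq]
    rfl
  rw [h]
  simp only [edgeL, List.map_cons, List.map_nil, List.prod_cons, List.prod_nil, mul_one]

/-- reorganization of the vertices -/
def eGG : ((S × S) × (S × S)) × ((S × S) × (Fin 6 → S × S)) ≃ (Fin 9 → S) × (Fin 9 → S) where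
  toFun t := (![t.1.1.1, t.2.1.1, t.1.1.2, (t.2.2 0).1, (t.2.2 1).1, (t.2.2 2).1, (t.2.2 3).1,
      (t.2.2 4).1, (t.2.2 5).1],
    ![t.1.2.1, t.1.2.2, t.2.1.2, (t.2.2 0).2, (t.2.2 1).2, (t.2.2 2).2, (t.2.2 3).2,
      (t.2.2 5).2, (t.2.2 4).2])
  invFun z := (((z.1 0, z.1 2), (z.2 0, z.2 1)), ((z.1 1, z.2 2),
    ![(z.1 3, z.2 3), (z.1 4, z.2 4), (z.1 5, z.2 5), (z.1 6, z.2 6), (z.1 7, z.2 8),
      (z.1 8, z.2 7)]))
  left_inv t := by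
    refine Prod.ext rfl (Prod.ext rfl ?_)
    funext i
    fin_cases i <;> rfl
  right_inv z := by
    refine Prod.ext ?_ ?_
    · funext i
      fin_cases i <;> rfl
    · funext i
      fin_cases i <;> rfl

theorem prod9 (m : S → ℝ) (x : Fin 9 → S) : ∏ a, m (x a) = m (x 0) * (m (x 1) * (m (x 2) *
    (m (x 3) * (m (x 4) * (m (x 5) * (m (x 6) * (m (x 7) * m (x 8)))))))) := by
  rw [Fin.prod_univ_succ, Fin.prod_univ_eight]
  have : ∀ i : Fin 8, x i.succ = x ⟨i.1 + 1, by omega⟩ := fun i => rfl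
  simp only [this]
  ring_nf
  rfl

/-- the factor of a path of length three -/
def pf (m : S → ℝ) (W : S → S → ℝ) (x y : S) (c : S × S) : ℝ :=
  m c.1 * m c.2 * (W x c.2 * W c.1 c.2 * W c.1 y)

/-- the factors of the six paths -/
def ff (m : S → ℝ) (W : S → S → ℝ) (x0 x2 y0 y1 : S) : Fin 6 → S × S → ℝ :=
  ![pf m W x0 y0, pf m W x0 y0, pf m W x0 y0, pf m W x0 y0, pf m W x2 y1, pf m W x2 y1]

theorem term_eq (m : S → ℝ) (W : S → S → ℝ) (t : ((S × S) × (S × S)) × ((S × S) × (Fin 6 → S × S))) :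
    (∏ a, m ((eGG t).1 a)) * (∏ b, m ((eGG t).2 b))
        * ∏ e ∈ GG.E, W ((eGG t).1 e.1) ((eGG t).2 e.2)
      = (m t.1.1.1 * m t.1.1.2 * m t.1.2.1 * m t.1.2.2) * (W t.1.1.1 t.1.2.2 * W t.1.1.2 t.1.2.1)
        * ((m t.2.1.1 * m t.2.1.2 * (W t.2.1.1 t.1.2.2 * W t.2.1.1 t.1.2.1 *
          (W t.1.1.1 t.2.1.2 * W t.1.1.2 t.2.1.2)))
        * ∏ g, ff m W t.1.1.1 t.1.1.2 t.1.2.1 t.1.2.2 g (t.2.2 g)) := by
  rw [prod_GG W (eGG t).1 (eGG t).2, prod9, prod9, Fin.prod_univ_six]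
  obtain ⟨⟨⟨x0, x2⟩, ⟨y0, y1⟩⟩, ⟨⟨x1, y2⟩, c⟩⟩ := t
  change m x0 * (m x1 * (m x2 * (m (c 0).1 * (m (c 1).1 * (m (c 2).1 * (m (c 3).1 *
    (m (c 4).1 * m (c 5).1))))))) * (m y0 * (m y1 * (m y2 * (m (c 0).2 * (m (c 1).2 *
    (m (c 2).2 * (m (c 3).2 * (m (c 5).2 * m (c 4).2)))))))) *
    (W x0 y1 * (W x0 y2 * (W x0 (c 0).2 * (W x0 (c 1).2 * (W x0 (c 2).2 * (W x0 (c 3).2 *
    (W x1 y1 * (W x2 y2 * (W (c 0).1 (c 0).2 * (W (c 1).1 (c 1).2 * (W (c 2).1 (c 2).2 *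
    (W (c 3).1 (c 3).2 * (W x1 y0 * (W x2 y0 * (W (c 0).1 y0 * (W (c 1).1 y0 * (W (c 2).1 y0 *
    (W (c 3).1 y0 * (W (c 4).1 y1 * (W (c 5).1 y1 * (W (c 5).1 (c 5).2 * (W x2 (c 5).2 *
    (W x2 (c 4).2 * W (c 4).1 (c 4).2))))))))))))))))))))))) =
    (m x0 * m x2 * m y0 * m y1) * (W x0 y1 * W x2 y0) *
    ((m x1 * m y2 * (W x1 y1 * W x1 y0 * (W x0 y2 * W x2 y2))) *
    (pf m W x0 y0 (c 0) * pf m W x0 y0 (c 1) * pf m W x0 y0 (c 2) * pf m W x0 y0 (c 3) *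
      pf m W x2 y1 (c 4) * pf m W x2 y1 (c 5)))
  simp only [pf]
  ring

theorem prod_ff (m : S → ℝ) (W : S → S → ℝ) (x0 x2 y0 y1 : S) :
    ∏ g, ∑ c : S × S, ff m W x0 x2 y0 y1 g c = PP m W x0 y0 ^ 4 * PP m W x2 y1 ^ 2 := by
  rw [Fin.prod_univ_six]
  change PP m W x0 y0 * PP m W x0 y0 * PP m W x0 y0 * PP m W x0 y0 * PP m W x2 y1
    * PP m W x2 y1 = _
  ring

theorem density_GG [MeasurableSpace S] [DiscreteMeasurableSpace S] {m : S → ℝ}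
    (h0 : ∀ i, 0 ≤ m i) (h1 : ∑ i, m i = 1) (W : S → S → ℝ) :
    density GG (wm m) (wm m) W = ∑ t : (S × S) × (S × S),
      (m t.1.1 * m t.1.2 * m t.2.1 * m t.2.2) * (W t.1.1 t.2.2 * W t.1.2 t.2.1)
        * (CC m W t.1.1 t.1.2 t.2.1 t.2.2 *
          (PP m W t.1.1 t.2.1 ^ 4 * PP m W t.1.2 t.2.2 ^ 2)) := by
  rw [density_wm GG h0 h1 W]
  refine Eq.trans (Equiv.sum_comp (eGG (S := S)) (fun z : (Fin 9 → S) × (Fin 9 → S) =>
    (∏ a, m (z.1 a)) * (∏ b, m (z.2 b)) * ∏ e ∈ GG.E, W (z.1 e.1) (z.2 e.2))).symm ?_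
  rw [Finset.sum_congr rfl fun t _ => term_eq m W t, Fintype.sum_prod_type]
  refine Finset.sum_congr rfl fun t _ => ?_
  dsimp only
  rw [← Finset.mul_sum, Fintype.sum_prod_type]
  congr 1
  dsimp only
  rw [CC, Finset.sum_mul]
  refine Finset.sum_congr rfl fun c _ => ?_
  rw [← Finset.mul_sum, sum_pi_prod, prod_ff]

/-! ### The union of the first three bags -/

/-- `K_{2,0}` with six paths of length three: the union of the first three bags. -/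
def Theta : Bigraph where
  V₁ := Fin 7
  V₂ := Fin 7
  E := {(0, 1), (0, 2), (0, 3), (0, 4), (0, 5), (0, 6),
    (1, 1), (2, 2), (3, 3), (4, 4), (5, 5), (6, 6),
    (1, 0), (2, 0), (3, 0), (4, 0), (5, 0), (6, 0)}

/-- the edges, as a list -/
def edgeT : List (Fin 7 × Fin 7) :=
  [(0, 1), (0, 2), (0, 3), (0, 4), (0, 5), (0, 6),
    (1, 1), (2, 2), (3, 3), (4, 4), (5, 5), (6, 6),
    (1, 0), (2, 0), (3, 0), (4, 0), (5, 0), (6, 0)]

theorem edgeT_eq : @Eq (Finset (Fin 7 × Fin 7)) Theta.E edgeT.toFinset := by rfl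

theorem edgeT_nodup : edgeT.Nodup := by decide

theorem prod_Theta (W : S → S → ℝ) (x y : Fin 7 → S) : ∏ e ∈ Theta.E, W (x e.1) (y e.2)
    = W (x 0) (y 1) * (W (x 0) (y 2) * (W (x 0) (y 3) * (W (x 0) (y 4) * (W (x 0) (y 5) * (
      W (x 0) (y 6) * (W (x 1) (y 1) * (W (x 2) (y 2) * (W (x 3) (y 3) * (W (x 4) (y 4) * (
      W (x 5) (y 5) * (W (x 6) (y 6) * (W (x 1) (y 0) * (W (x 2) (y 0) * (W (x 3) (y 0) * (
      W (x 4) (y 0) * (W (x 5) (y 0) * (W (x 6) (y 0)))))))))))))))))) := by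
  have h : ∏ e ∈ Theta.E, W (x e.1) (y e.2) = (edgeT.map fun e => W (x e.1) (y e.2)).prod := by
    rw [← List.prod_toFinset _ edgeT_nodup, ← edgeT_eq]
    rfl
  rw [h]
  simp only [edgeT, List.map_cons, List.map_nil, List.prod_cons, List.prod_nil, mul_one]

/-- reorganization of the vertices -/
def eTheta : (S × S) × (Fin 6 → S × S) ≃ (Fin 7 → S) × (Fin 7 → S) where
  toFun t := (![t.1.1, (t.2 0).1, (t.2 1).1, (t.2 2).1, (t.2 3).1, (t.2 4).1, (t.2 5).1],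
    ![t.1.2, (t.2 0).2, (t.2 1).2, (t.2 2).2, (t.2 3).2, (t.2 4).2, (t.2 5).2])
  invFun z := ((z.1 0, z.2 0),
    ![(z.1 1, z.2 1), (z.1 2, z.2 2), (z.1 3, z.2 3), (z.1 4, z.2 4), (z.1 5, z.2 5),
      (z.1 6, z.2 6)])
  left_inv t := by
    refine Prod.ext rfl ?_
    funext i
    fin_cases i <;> rfl
  right_inv z := by
    refine Prod.ext ?_ ?_
    · funext i
      fin_cases i <;> rfl
    · funext i
      fin_cases i <;> rfl

theorem termT_eq (m : S → ℝ) (W : S → S → ℝ) (t : (S × S) × (Fin 6 → S × S)) :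
    (∏ a, m ((eTheta t).1 a)) * (∏ b, m ((eTheta t).2 b))
        * ∏ e ∈ Theta.E, W ((eTheta t).1 e.1) ((eTheta t).2 e.2)
      = (m t.1.1 * m t.1.2) * ∏ g : Fin 6, pf m W t.1.1 t.1.2 (t.2 g) := by
  rw [prod_Theta W (eTheta t).1 (eTheta t).2, Fin.prod_univ_seven, Fin.prod_univ_seven,
    Fin.prod_univ_six]
  obtain ⟨⟨x0, y0⟩, c⟩ := t
  change (m x0 * m (c 0).1 * m (c 1).1 * m (c 2).1 * m (c 3).1 * m (c 4).1 * m (c 5).1) *
    (m y0 * m (c 0).2 * m (c 1).2 * m (c 2).2 * m (c 3).2 * m (c 4).2 * m (c 5).2) *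
    (W x0 (c 0).2 * (W x0 (c 1).2 * (W x0 (c 2).2 * (W x0 (c 3).2 * (W x0 (c 4).2 *
    (W x0 (c 5).2 * (W (c 0).1 (c 0).2 * (W (c 1).1 (c 1).2 * (W (c 2).1 (c 2).2 *
    (W (c 3).1 (c 3).2 * (W (c 4).1 (c 4).2 * (W (c 5).1 (c 5).2 * (W (c 0).1 y0 *
    (W (c 1).1 y0 * (W (c 2).1 y0 * (W (c 3).1 y0 * (W (c 4).1 y0 * (W (c 5).1 y0)
    ))))))))))))))))) = (m x0 * m y0) * (pf m W x0 y0 (c 0) * pf m W x0 y0 (c 1) *
      pf m W x0 y0 (c 2) * pf m W x0 y0 (c 3) * pf m W x0 y0 (c 4) * pf m W x0 y0 (c 5))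
  simp only [pf]
  ring

theorem density_Theta [MeasurableSpace S] [DiscreteMeasurableSpace S] {m : S → ℝ}
    (h0 : ∀ i, 0 ≤ m i) (h1 : ∑ i, m i = 1) (W : S → S → ℝ) :
    density Theta (wm m) (wm m) W = ∑ t : S × S, (m t.1 * m t.2) * PP m W t.1 t.2 ^ 6 := by
  rw [density_wm Theta h0 h1 W]
  refine Eq.trans (Equiv.sum_comp (eTheta (S := S)) (fun z : (Fin 7 → S) × (Fin 7 → S) =>
    (∏ a, m (z.1 a)) * (∏ b, m (z.2 b)) * ∏ e ∈ Theta.E, W (z.1 e.1) (z.2 e.2))).symm ?_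
  rw [Finset.sum_congr rfl fun t _ => termT_eq m W t, Fintype.sum_prod_type]
  refine Finset.sum_congr rfl fun t _ => ?_
  dsimp only
  rw [← Finset.mul_sum, sum_pi_prod (fun _ => pf m W t.1 t.2), Finset.prod_const,
    Finset.card_univ, Fintype.card_fin]
  rfl

/-! ### The edge -/

theorem density_rho [MeasurableSpace S] [DiscreteMeasurableSpace S] {m : S → ℝ}
    (h0 : ∀ i, 0 ≤ m i) (h1 : ∑ i, m i = 1) (W : S → S → ℝ) :
    density rho (wm m) (wm m) W = ∑ t : S × S, (m t.1 * m t.2) * W t.1 t.2 := by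
  rw [density_wm rho h0 h1 W]
  refine Eq.trans (Equiv.sum_comp ((Equiv.funUnique Unit S).prodCongr
    (Equiv.funUnique Unit S)).symm (fun z : (Unit → S) × (Unit → S) =>
    (∏ a, m (z.1 a)) * (∏ b, m (z.2 b)) * ∏ e ∈ rho.E, W (z.1 e.1) (z.2 e.2))).symm ?_
  refine Finset.sum_congr rfl fun t _ => ?_
  simp [rho]

end

end Pool.Agent.MP_3a8b9a_co
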