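import Mathlib

open MeasureTheory

namespace Pool.Agent.MP_3a8b9a_co

/-- A bigraph `(V₁, V₂, E)` with finite sides `V₁`, `V₂` and `E ⊆ V₁ × V₂`. -/
structure Bigraph where
  /-- the first side -/
  V₁ : Type
  /-- the second side -/
  V₂ : Type
  [fintype₁ : Fintype V₁]
  [fintype₂ : Fintype V₂]
  [decEq₁ : DecidableEq V₁]
  [decEq₂ : DecidableEq V₂]
  /-- the edges -/
  E : Finset (V₁ × V₂)

attribute [instance] Bigraph.fintype₁ Bigraph.fintype₂ Bigraph.decEq₁ Bigraph.decEq₂

/-- The bigraph `ρ` with one edge. -/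
def rho : Bigraph where
  V₁ := Unit
  V₂ := Unit
  E := Finset.univ

/-! ### Bigraphons, densities and weak domination -/

section Density

variable {X Y : Type} [MeasurableSpace X] [MeasurableSpace Y]

/-- A bigraphon: a bounded measurable function `W : X × Y → ℝ` with non-negative values. -/
structure IsBigraphon (W : X → Y → ℝ) : Prop where
  measurable : Measurable fun z : X × Y => W z.1 z.2
  nonneg : ∀ x y, 0 ≤ W x y
  bounded : ∃ C, ∀ x y, W x y ≤ C

/-- The density `t(G, W)`. -/
noncomputable def density (G : Bigraph) (μ : Measure X) (ν : Measure Y) (W : X → Y → ℝ) : ℝ :=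
  ∫ z : (G.V₁ → X) × (G.V₂ → Y), ∏ e ∈ G.E, W (z.1 e.1) (z.2 e.2)
    ∂((Measure.pi fun _ => μ).prod (Measure.pi fun _ => ν))

/-- `W` is biregular. -/
def IsBiregular (μ : Measure X) (ν : Measure Y) (W : X → Y → ℝ) : Prop :=
  (∀ᵐ x ∂μ, ∫ y, W x y ∂ν = density rho μ ν W) ∧ ∀ᵐ y ∂ν, ∫ x, W x y ∂μ = density rho μ ν W

end Density

/-- `G₁` weakly dominates `G₂`. -/
def WeaklyDominates (G₁ G₂ : Bigraph) : Prop :=
  ∀ (X Y : Type) [MeasurableSpace X] [MeasurableSpace Y] (μ : Measure X) (ν : Measure Y)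
    [IsProbabilityMeasure μ] [IsProbabilityMeasure ν] (W : X → Y → ℝ),
    IsBigraphon W → IsBiregular μ ν W → density rho μ ν W ≠ 0 →
      density G₂ μ ν W / density rho μ ν W ^ G₂.E.card
        ≤ density G₁ μ ν W / density rho μ ν W ^ G₁.E.card

/-! ### Vertices, induced sub-bigraphs and cores -/

namespace Bigraph

variable (G : Bigraph)

/-- The vertex set `V₁ ∪ V₂`. -/
abbrev Vert : Type := G.V₁ ⊕ G.V₂

/-- Adjacency. -/
def Adj : G.Vert → G.Vert → Prop
  | Sum.inl v, Sum.inr w => (v, w) ∈ G.E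
  | Sum.inr w, Sum.inl v => (v, w) ∈ G.E
  | Sum.inl _, Sum.inl _ => False
  | Sum.inr _, Sum.inr _ => False

instance : DecidableRel G.Adj := fun a b =>
  match a, b with
  | Sum.inl v, Sum.inr w => inferInstanceAs (Decidable ((v, w) ∈ G.E))
  | Sum.inr w, Sum.inl v => inferInstanceAs (Decidable ((v, w) ∈ G.E))
  | Sum.inl _, Sum.inl _ => inferInstanceAs (Decidable False)
  | Sum.inr _, Sum.inr _ => inferInstanceAs (Decidable False)

/-- The underlying graph. -/
def toSimpleGraph : SimpleGraph G.Vert where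
  Adj := G.Adj
  symm := ⟨by
    rintro (v | v) (w | w) h
    · exact h
    · exact h
    · exact h
    · exact h⟩
  loopless := ⟨by
    rintro (v | v) h
    · exact h
    · exact h⟩

/-- The induced sub-bigraph `G|_U`. -/
def induce (U : Finset G.Vert) : Bigraph where
  V₁ := {v : G.V₁ // Sum.inl v ∈ U}
  V₂ := {w : G.V₂ // Sum.inr w ∈ U}
  E := Finset.univ.filter fun e => (e.1.1, e.2.1) ∈ G.E

/-- One round of deletions: keep the vertices of `A` which are in `S` or have at least two
neighbours in `A`. -/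
def peel (S A : Finset G.Vert) : Finset G.Vert :=
  A.filter fun v => v ∈ S ∨ 2 ≤ (A.filter fun w => G.Adj v w).card

/-- The vertex set of the `2`-core of `G|_U` relative to `S`: vertices outside `S` of degree less
than `2` are repeatedly deleted (after `|U|` rounds nothing more is deleted). -/
def relCore (U S : Finset G.Vert) : Finset G.Vert := (G.peel S)^[U.card] U

/-- `G|_A` and `G|_B` are isomorphic via a side-preserving isomorphism fixing every vertex
of `S`. -/
def IsoFixing (A B S : Finset G.Vert) : Prop :=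
  ∃ f : {v // v ∈ A} ≃ {v // v ∈ B},
    (∀ v, (f v).1.isLeft = v.1.isLeft) ∧ (∀ v w, G.Adj (f v).1 (f w).1 ↔ G.Adj v.1 w.1) ∧
      ∀ v, v.1 ∈ S → (f v).1 = v.1

end Bigraph

/-- A reflective tree decomposition of `G`: a tree `T` whose vertices are (indexed bijectively by
`ι`) subsets of the vertex set of `G`, with the properties 1-4. -/
structure ReflectiveTreeDecomposition (G : Bigraph) where
  /-- index set of the vertices of the tree -/
  ι : Type
  /-- the bags -/
  bag : ι → Finset G.Vert
  bag_injective : Function.Injective bag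
  /-- the tree -/
  tree : SimpleGraph ι
  isTree : tree.IsTree
  cover : ∀ v : G.Vert, ∃ i, v ∈ bag i
  edge : ∀ v w : G.Vert, G.Adj v w → ∃ i, v ∈ bag i ∧ w ∈ bag i
  path : ∀ (i j k : ι) (p : tree.Walk i j), p.IsPath → k ∈ p.support → bag i ∩ bag j ⊆ bag k
  reflective : ∀ i j : ι, tree.Adj i j → G.IsoFixing (G.relCore (bag i) (bag i ∩ bag j))
    (G.relCore (bag j) (bag i ∩ bag j)) (bag i ∩ bag j)

end Pool.Agent.MP_3a8b9a_co
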