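import Pool.Agent.MP_3a8b9a_co.Hyp
import Pool.Agent.MP_3a8b9a_co.Example

open MeasureTheory

namespace Pool.Agent.MP_3a8b9a_co

/-- The hexagon. -/
def C6 : Bigraph where
  V₁ := Fin 3
  V₂ := Fin 3
  E := {(0, 0), (0, 1), (1, 1), (1, 2), (2, 0), (2, 2)}

section

variable {X Y : Type} [MeasurableSpace X] [MeasurableSpace Y]
  (μ : Measure X) (ν : Measure Y) [IsProbabilityMeasure μ] [IsProbabilityMeasure ν]
  {W : X → Y → ℝ}

/-- neighbours in the hexagon -/
def nb (a : C6.V₁) : Finset C6.V₂ := Finset.univ.filter fun b => (a, b) ∈ C6.E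

theorem nb_zero : @Eq (Finset (Fin 3)) (nb (0 : Fin 3)) {0, 1} := by rfl
theorem nb_one : @Eq (Finset (Fin 3)) (nb (1 : Fin 3)) {1, 2} := by rfl
theorem nb_two : @Eq (Finset (Fin 3)) (nb (2 : Fin 3)) {0, 2} := by rfl

theorem density_C6_eq (hW : IsBigraphon W) : density C6 μ ν W = ∫ y : Fin 3 → Y,
    (∫ x, W x (y 0) * W x (y 1) ∂μ) * (∫ x, W x (y 1) * W x (y 2) ∂μ)
      * (∫ x, W x (y 0) * W x (y 2) ∂μ) ∂(Measure.pi fun _ => ν) := by
  rw [density_eq_integral C6 μ ν hW]
  congr 1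
  funext y
  refine Eq.trans (Fin.prod_univ_three (fun a : Fin 3 =>
    ∫ x : X, ∏ b ∈ nb a, W x (y b) ∂μ)) ?_
  rw [nb_zero, nb_one, nb_two]
  congr 1
  · congr 1
    · congr 1
      funext x
      exact Finset.prod_pair (show (0 : Fin 3) ≠ 1 by decide)
    · congr 1
      funext x
      exact Finset.prod_pair (show (1 : Fin 3) ≠ 2 by decide)
  · congr 1
    funext x
    exact Finset.prod_pair (show (0 : Fin 3) ≠ 2 by decide)

theorem density_C6_ge (hW : IsBigraphon W) (hb : IsBiregular μ ν W) :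
    density rho μ ν W ^ 6 ≤ density C6 μ ν W := by
  obtain ⟨C, hC⟩ := hW.bounded
  set p := density rho μ ν W with hp
  let w : X → Y → ENNReal := fun x y => ENNReal.ofReal (W x y)
  have hw : Measurable fun z : X × Y => w z.1 z.2 := hW.measurable.ennreal_ofReal
  have hWl : ∀ x, Measurable (W x) := fun x =>
    hW.measurable.comp (measurable_const.prodMk measurable_id)
  have hWr : ∀ y, Measurable fun x => W x y := fun y =>
    hW.measurable.comp (measurable_id.prodMk measurable_const)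
  have h1 : ∀ᵐ x ∂μ, ∫⁻ y, w x y ∂ν = ENNReal.ofReal p := by
    filter_upwards [hb.1] with x hx
    rw [hp, ← hx, ofReal_integral_eq_lintegral_ofReal]
    · refine Integrable.of_bound (hWl x).aestronglyMeasurable C
        (Filter.Eventually.of_forall fun y => ?_)
      rw [Real.norm_eq_abs, abs_of_nonneg (hW.nonneg _ _)]
      exact hC _ _
    · exact Filter.Eventually.of_forall fun y => hW.nonneg _ _
  have h2 : ∀ᵐ y ∂ν, ∫⁻ x, w x y ∂μ = ENNReal.ofReal p := by
    filter_upwards [hb.2] with y hy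
    rw [hp, ← hy, ofReal_integral_eq_lintegral_ofReal]
    · refine Integrable.of_bound (hWr y).aestronglyMeasurable C
        (Filter.Eventually.of_forall fun y => ?_)
      rw [Real.norm_eq_abs, abs_of_nonneg (hW.nonneg _ _)]
      exact hC _ _
    · exact Filter.Eventually.of_forall fun y => hW.nonneg _ _
  let K : Y → Y → ℝ := fun a b => ∫ x, W x a * W x b ∂μ
  have hK0 : ∀ a b, 0 ≤ K a b := fun a b =>
    integral_nonneg fun x => mul_nonneg (hW.nonneg _ _) (hW.nonneg _ _)
  have hC0 : ∀ x y, 0 ≤ C := fun x y => (hW.nonneg x y).trans (hC x y)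
  have hint : ∀ a b, Integrable (fun x => W x a * W x b) μ := by
    intro a b
    refine Integrable.of_bound ((hWr a).mul (hWr b)).aestronglyMeasurable (C * C)
      (Filter.Eventually.of_forall fun x => ?_)
    rw [Real.norm_eq_abs, abs_of_nonneg (mul_nonneg (hW.nonneg _ _) (hW.nonneg _ _))]
    exact mul_le_mul (hC _ _) (hC _ _) (hW.nonneg _ _) (hC0 x a)
  have hKk : ∀ a b, ENNReal.ofReal (K a b) = kk μ w a b := by
    intro a b
    rw [ofReal_integral_eq_lintegral_ofReal (hint a b)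
      (Filter.Eventually.of_forall fun x => mul_nonneg (hW.nonneg _ _) (hW.nonneg _ _))]
    unfold kk
    congr 1
    funext x
    exact ENNReal.ofReal_mul (hW.nonneg _ _)
  have hKC : ∀ a b, K a b ≤ C * C := by
    intro a b
    have : K a b ≤ ∫ _x : X, C * C ∂μ := by
      apply integral_mono (hint a b) (integrable_const _)
      intro x
      exact mul_le_mul (hC _ _) (hC _ _) (hW.nonneg _ _) (hC0 x a)
    simpa using this
  have hKm : Measurable fun z : Y × Y => K z.1 z.2 := by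
    have h3 : (fun z : Y × Y => K z.1 z.2) = fun z => (kk μ w z.1 z.2).toReal := by
      funext z
      rw [← hKk, ENNReal.toReal_ofReal (hK0 _ _)]
    rw [h3]
    exact (meas_kk μ hw).ennreal_toReal
  have hF : Measurable fun y : Fin 3 → Y => K (y 0) (y 1) * K (y 1) (y 2) * K (y 0) (y 2) := by
    refine Measurable.mul (Measurable.mul ?_ ?_) ?_
    · exact hKm.comp (show Measurable fun y : Fin 3 → Y => (y 0, y 1) by fun_prop)
    · exact hKm.comp (show Measurable fun y : Fin 3 → Y => (y 1, y 2) by fun_prop)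
    · exact hKm.comp (show Measurable fun y : Fin 3 → Y => (y 0, y 2) by fun_prop)
  have hF0 : ∀ y : Fin 3 → Y, 0 ≤ K (y 0) (y 1) * K (y 1) (y 2) * K (y 0) (y 2) := fun y =>
    mul_nonneg (mul_nonneg (hK0 _ _) (hK0 _ _)) (hK0 _ _)
  have hFi : Integrable (fun y : Fin 3 → Y => K (y 0) (y 1) * K (y 1) (y 2) * K (y 0) (y 2))
      (Measure.pi fun _ => ν) := by
    refine Integrable.of_bound hF.aestronglyMeasurable ((C * C) * (C * C) * (C * C))
      (Filter.Eventually.of_forall fun y => ?_)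
    rw [Real.norm_eq_abs, abs_of_nonneg (hF0 y)]
    have hCC : 0 ≤ C * C := (hK0 (y 0) (y 0)).trans (hKC _ _)
    exact mul_le_mul (mul_le_mul (hKC _ _) (hKC _ _) (hK0 _ _) hCC) (hKC _ _) (hK0 _ _)
      (mul_nonneg hCC hCC)
  have hnn : 0 ≤ density C6 μ ν W := density_nonneg _ _ _ hW.nonneg
  have hmain : ENNReal.ofReal p ^ 6 ≤ ENNReal.ofReal (density C6 μ ν W) := by
    rw [density_C6_eq μ ν hW]
    change _ ≤ ENNReal.ofReal (∫ y : Fin 3 → Y,
      K (y 0) (y 1) * K (y 1) (y 2) * K (y 0) (y 2) ∂(Measure.pi fun _ => ν))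
    rw [ofReal_integral_eq_lintegral_ofReal hFi (Filter.Eventually.of_forall hF0),
      lintegral_fin3 ν hF.ennreal_ofReal]
    refine (c6_bound μ ν hw h1 h2).trans (le_of_eq ?_)
    congr 1
    funext a
    congr 1
    funext b
    congr 1
    funext c
    change _ = ENNReal.ofReal (K a b * K b c * K a c)
    rw [ENNReal.ofReal_mul (mul_nonneg (hK0 _ _) (hK0 _ _)), ENNReal.ofReal_mul (hK0 _ _), hKk,
      hKk, hKk]
  rw [← ENNReal.ofReal_pow (density_nonneg _ _ _ hW.nonneg)] at hmain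
  exact (ENNReal.ofReal_le_ofReal_iff hnn).1 hmain

end

/-- first sides of the bags, in cyclic order -/
def fl : Fin 4 → Fin 3 → Fin 9 := ![![0, 2, 1], ![0, 4, 3], ![0, 6, 5], ![7, 2, 8]]

/-- second sides of the bags, in cyclic order -/
def fr : Fin 4 → Fin 3 → Fin 9 := ![![1, 2, 0], ![3, 4, 0], ![5, 6, 0], ![1, 8, 7]]

theorem fl_mem : ∀ k : Fin 4, ∀ i : Fin 3, (Sum.inl (fl k i : Fin 9) : GG.Vert) ∈ bag k := by
  decide

theorem fr_mem : ∀ k : Fin 4, ∀ i : Fin 3, (Sum.inr (fr k i : Fin 9) : GG.Vert) ∈ bag k := by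
  decide

/-- parametrization of the first side of a bag -/
def gl (k : Fin 4) (i : C6.V₁) : (GG.induce (bag k)).V₁ := ⟨fl k i, fl_mem k i⟩

/-- parametrization of the second side of a bag -/
def gr (k : Fin 4) (i : C6.V₂) : (GG.induce (bag k)).V₂ := ⟨fr k i, fr_mem k i⟩

theorem gl_inj : ∀ k : Fin 4, ∀ i j : C6.V₁, gl k i = gl k j → i = j := by decide

theorem gr_inj : ∀ k : Fin 4, ∀ i j : C6.V₂, gr k i = gr k j → i = j := by decide

theorem gl_surj : ∀ k : Fin 4, ∀ v : (GG.induce (bag k)).V₁, ∃ i : C6.V₁, gl k i = v := by decide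

theorem gr_surj : ∀ k : Fin 4, ∀ v : (GG.induce (bag k)).V₂, ∃ i : C6.V₂, gr k i = v := by decide

theorem g_edge' : ∀ k : Fin 4, ∀ a : C6.V₁, ∀ b : C6.V₂,
    (C6.Adj (Sum.inl a) (Sum.inr b) ↔
      (GG.induce (bag k)).Adj (Sum.inl (gl k a)) (Sum.inr (gr k b))) := by
  decide

theorem g_edge (k : Fin 4) (a : C6.V₁) (b : C6.V₂) :
    ((a, b) ∈ C6.E ↔ (gl k a, gr k b) ∈ (GG.induce (bag k)).E) :=
  g_edge' k a b

theorem g_card : ∀ k : Fin 4, (GG.induce (bag k)).E.card = 6 := by
  decide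

theorem inter_edges : ∀ i j : Fin 4, star.Adj i j → (GG.induce (bag i ∩ bag j)).E.card = 0 := by
  decide

section

variable {X Y : Type} [MeasurableSpace X] [MeasurableSpace Y]
  (μ : Measure X) (ν : Measure Y) [IsProbabilityMeasure μ] [IsProbabilityMeasure ν]

theorem density_bag (W : X → Y → ℝ) (k : Fin 4) :
    density (GG.induce (bag k)) μ ν W = density C6 μ ν W :=
  (density_iso (G := C6) (G' := GG.induce (bag k))
    (Equiv.ofBijective (gl k) ⟨fun i j h => gl_inj k i j h, gl_surj k⟩)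
    (Equiv.ofBijective (gr k) ⟨fun i j h => gr_inj k i j h, gr_surj k⟩) (g_edge k) μ ν W).symm

end

/-- The hypothesis: the core weakly dominates the intersections of adjacent bags. -/
theorem hyp (i j : Fin 4) (h : star.Adj i j) (k : Fin 4) :
    WeaklyDominates (GG.induce (GG.relCore (bag k) ∅)) (GG.induce (bag i ∩ bag j)) := by
  rw [relCore_bag]
  intro X Y _ _ μ ν _ _ W hW hb hne
  have h0 : (GG.induce (bag i ∩ bag j)).E = ∅ := Finset.card_eq_zero.1 (inter_edges i j h)
  rw [density_of_empty h0, h0, Finset.card_empty, pow_zero, div_one, g_card, density_bag]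
  have hp : 0 < density rho μ ν W ^ 6 :=
    pow_pos (lt_of_le_of_ne (density_nonneg _ _ _ hW.nonneg) (Ne.symm hne)) 6
  rw [le_div_iff₀ hp, one_mul]
  exact density_C6_ge μ ν hW hb

end Pool.Agent.MP_3a8b9a_co
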