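import Pool.Agent.MP_3a8b9a_co.Num
import Pool.Agent.MP_3a8b9a_co.Hyp2

open MeasureTheory

namespace Pool.Agent.MP_3a8b9a_co

/-- the point masses -/
noncomputable def mm (i : Fin 4) : ℝ := (mq i : ℝ)

/-- the bigraphon -/
noncomputable def WW (i j : Fin 4) : ℝ := (Wq i j : ℝ)

theorem mm_nonneg (i : Fin 4) : 0 ≤ mm i := by
  unfold mm; exact_mod_cast mq_nonneg i

theorem mm_sum : ∑ i, mm i = 1 := by
  have h := congrArg (fun q : ℚ => (q : ℝ)) mq_sum
  push_cast at h
  exact h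

theorem isBigraphon_WW : IsBigraphon WW where
  measurable := Measurable.of_discrete
  nonneg i j := by unfold WW; exact_mod_cast Wq_nonneg i j
  bounded := ⟨4196386, fun i j => by unfold WW; exact_mod_cast Wq_le i j⟩

theorem WW_left (i : Fin 4) : ∑ j, mm j * WW i j = 1 := by
  have h := congrArg (fun q : ℚ => (q : ℝ)) (Wq_left i)
  push_cast at h
  exact h

theorem WW_right (j : Fin 4) : ∑ i, mm i * WW i j = 1 := by
  have h := congrArg (fun q : ℚ => (q : ℝ)) (Wq_right j)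
  push_cast at h
  exact h

theorem rho_WW : density rho (wm mm) (wm mm) WW = 1 := by
  rw [density_rho mm_nonneg mm_sum, Fintype.sum_prod_type, ← mm_sum]
  refine Finset.sum_congr rfl fun i _ => ?_
  calc ∑ j, mm i * mm j * WW i j = mm i * ∑ j, mm j * WW i j := by
        rw [Finset.mul_sum]
        exact Finset.sum_congr rfl fun j _ => by ring
    _ = mm i := by rw [WW_left, mul_one]

theorem biregular_WW : IsBiregular (wm mm) (wm mm) WW := by
  constructor
  · refine Filter.Eventually.of_forall fun i => ?_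
    rw [integral_wm mm_nonneg mm_sum, WW_left, rho_WW]
  · refine Filter.Eventually.of_forall fun j => ?_
    rw [integral_wm mm_nonneg mm_sum, WW_right, rho_WW]

theorem PP_eq (x y : Fin 4) : PP mm WW x y = (Pt x y : ℝ) := by
  have h := congrArg (fun q : ℚ => (q : ℝ)) (Pt_eq x y)
  rw [← h, PP, Fintype.sum_prod_type]
  push_cast
  refine Finset.sum_congr rfl fun a _ => ?_
  have h2 := congrArg (fun q : ℚ => (q : ℝ)) (Kt_eq' x a)
  rw [← h2]
  push_cast
  rw [Finset.mul_sum, Finset.sum_mul]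
  refine Finset.sum_congr rfl fun b _ => ?_
  simp only [mm, WW]
  ring

theorem CC_eq (x0 x2 y0 y1 : Fin 4) :
    CC mm WW x0 x2 y0 y1 = (Kt y1 y0 : ℝ) * (Kt x0 x2 : ℝ) := by
  have h1 := congrArg (fun q : ℚ => (q : ℝ)) (Kt_eq y1 y0)
  have h2 := congrArg (fun q : ℚ => (q : ℝ)) (Kt_eq' x0 x2)
  rw [← h1, ← h2, CC, Fintype.sum_prod_type]
  push_cast
  rw [Finset.sum_mul_sum]
  refine Finset.sum_congr rfl fun a _ => ?_
  refine Finset.sum_congr rfl fun b _ => ?_
  simp only [mm, WW]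
  ring

theorem ineq_WW : density GG (wm mm) (wm mm) WW < density Theta (wm mm) (wm mm) WW := by
  rw [density_GG mm_nonneg mm_sum, density_Theta mm_nonneg mm_sum]
  have h : ((∑ t : (Fin 4 × Fin 4) × (Fin 4 × Fin 4),
      (mq t.1.1 * mq t.1.2 * mq t.2.1 * mq t.2.2) * (Wq t.1.1 t.2.2 * Wq t.1.2 t.2.1)
        * ((Kt t.2.2 t.2.1 * Kt t.1.1 t.1.2) * (Pt t.1.1 t.2.1 ^ 4 * Pt t.1.2 t.2.2 ^ 2)) : ℚ) : ℝ)
    < ((∑ t : Fin 4 × Fin 4, (mq t.1 * mq t.2) * Pt t.1 t.2 ^ 6 : ℚ) : ℝ) :=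
    Rat.cast_lt.2 final_ineq
  push_cast at h
  simp only [PP_eq, CC_eq, mm, WW]
  exact h

/-! ### The union of the first three bags -/

/-- the first three bags -/
def VV : Finset (Fin 4) := {0, 1, 2}

theorem un_mem : ∀ i : Theta.V₁, (Sum.inl (Fin.castLE (by decide : 7 ≤ 9) i : Fin 9) : GG.Vert)
    ∈ VV.biUnion bag := by
  decide

theorem un_mem' : ∀ i : Theta.V₂, (Sum.inr (Fin.castLE (by decide : 7 ≤ 9) i : Fin 9) : GG.Vert)
    ∈ VV.biUnion bag := by
  decide

/-- parametrization -/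
def ul (i : Theta.V₁) : (GG.induce (VV.biUnion bag)).V₁ :=
  ⟨(Fin.castLE (by decide : 7 ≤ 9) i : Fin 9), un_mem i⟩

/-- parametrization -/
def ur (i : Theta.V₂) : (GG.induce (VV.biUnion bag)).V₂ :=
  ⟨(Fin.castLE (by decide : 7 ≤ 9) i : Fin 9), un_mem' i⟩

theorem ul_inj : ∀ i j : Theta.V₁, ul i = ul j → i = j := by decide

theorem ur_inj : ∀ i j : Theta.V₂, ur i = ur j → i = j := by decide

theorem ul_surj : ∀ v : (GG.induce (VV.biUnion bag)).V₁, ∃ i : Theta.V₁, ul i = v := by decide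

theorem ur_surj : ∀ v : (GG.induce (VV.biUnion bag)).V₂, ∃ i : Theta.V₂, ur i = v := by decide

theorem u_edge : ∀ a : Theta.V₁, ∀ b : Theta.V₂, (Theta.Adj (Sum.inl a) (Sum.inr b) ↔
    (GG.induce (VV.biUnion bag)).Adj (Sum.inl (ul a)) (Sum.inr (ur b))) := by
  decide

theorem density_union : density (GG.induce (VV.biUnion bag)) (wm mm) (wm mm) WW
    = density Theta (wm mm) (wm mm) WW := by
  have := wm_prob mm_nonneg mm_sum
  exact (density_iso (G := Theta) (G' := GG.induce (VV.biUnion bag))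
    (Equiv.ofBijective ul ⟨fun i j h => ul_inj i j h, ul_surj⟩)
    (Equiv.ofBijective ur ⟨fun i j h => ur_inj i j h, ur_surj⟩) u_edge _ _ _).symm

theorem not_dominates : ¬ WeaklyDominates GG (GG.induce (VV.biUnion bag)) := by
  intro h
  have := wm_prob mm_nonneg mm_sum
  have h2 := h (Fin 4) (Fin 4) (wm mm) (wm mm) WW isBigraphon_WW biregular_WW
    (by rw [rho_WW]; exact one_ne_zero)
  rw [rho_WW, one_pow, one_pow, div_one, div_one, density_union] at h2
  exact absurd ineq_WW (not_lt.2 h2)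

end Pool.Agent.MP_3a8b9a_co
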