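import Pool.Agent.MP_3a8b9a_co.Iso

open MeasureTheory

namespace Pool.Agent.MP_3a8b9a_co

variable {S : Type} [Fintype S] [DecidableEq S] [MeasurableSpace S] [DiscreteMeasurableSpace S]

/-- The measure with given point masses. -/
noncomputable def wm (m : S → ℝ) : Measure S := ∑ i, ENNReal.ofReal (m i) • Measure.dirac i

theorem wm_singleton (m : S → ℝ) (i : S) : wm m {i} = ENNReal.ofReal (m i) := by
  rw [wm, Measure.finset_sum_apply]
  simp only [Measure.smul_apply, smul_eq_mul]
  rw [Finset.sum_eq_single i]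
  · rw [Measure.dirac_apply' _ (MeasurableSet.of_discrete)]
    simp
  · intro j _ hj
    rw [Measure.dirac_apply' _ (MeasurableSet.of_discrete)]
    simp [hj]
  · intro h; exact absurd (Finset.mem_univ _) h

theorem wm_prob {m : S → ℝ} (h0 : ∀ i, 0 ≤ m i) (h1 : ∑ i, m i = 1) :
    IsProbabilityMeasure (wm m) := by
  constructor
  rw [wm, Measure.finset_sum_apply]
  simp only [Measure.smul_apply, smul_eq_mul, measure_univ, mul_one]
  rw [← ENNReal.ofReal_sum_of_nonneg fun i _ => h0 i, h1, ENNReal.ofReal_one]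

theorem integral_wm {m : S → ℝ} (h0 : ∀ i, 0 ≤ m i) (h1 : ∑ i, m i = 1) (f : S → ℝ) :
    ∫ i, f i ∂(wm m) = ∑ i, m i * f i := by
  haveI := wm_prob h0 h1
  rw [integral_fintype (Integrable.of_finite)]
  refine Finset.sum_congr rfl fun i _ => ?_
  rw [Measure.real, wm_singleton, ENNReal.toReal_ofReal (h0 i), smul_eq_mul]

theorem density_wm (G : Bigraph) {m : S → ℝ} (h0 : ∀ i, 0 ≤ m i) (h1 : ∑ i, m i = 1)
    (W : S → S → ℝ) : density G (wm m) (wm m) W
      = ∑ z : (G.V₁ → S) × (G.V₂ → S), (∏ a, m (z.1 a)) * (∏ b, m (z.2 b))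
        * ∏ e ∈ G.E, W (z.1 e.1) (z.2 e.2) := by
  haveI := wm_prob h0 h1
  rw [density, integral_fintype (Integrable.of_finite)]
  refine Finset.sum_congr rfl fun z _ => ?_
  obtain ⟨x, y⟩ := z
  rw [Measure.real, ← Set.singleton_prod_singleton, Measure.prod_prod, Measure.pi_singleton,
    Measure.pi_singleton, ENNReal.toReal_mul, ENNReal.toReal_prod, ENNReal.toReal_prod,
    smul_eq_mul]
  simp only [wm_singleton, ENNReal.toReal_ofReal (h0 _)]

/-- Summing out independent pairs. -/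
theorem sum_pi_prod {n : ℕ} (f : Fin n → S × S → ℝ) :
    ∑ c : Fin n → S × S, ∏ g, f g (c g) = ∏ g, ∑ c : S × S, f g c := by
  rw [Finset.prod_univ_sum, Fintype.piFinset_univ]

end Pool.Agent.MP_3a8b9a_co
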