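import Pool.Agent.MP_3a8b9a_co.Iso

open MeasureTheory

namespace Pool.Agent.MP_3a8b9a_co

variable {X Y : Type} [MeasurableSpace X] [MeasurableSpace Y]

theorem lintegral_succ {n : ℕ} (ν : Measure Y) [IsProbabilityMeasure ν]
    {F : (Fin (n + 1) → Y) → ENNReal} (hF : Measurable F) :
    ∫⁻ y, F y ∂(Measure.pi fun _ => ν)
      = ∫⁻ a, ∫⁻ y, F (Fin.cons a y) ∂(Measure.pi fun _ : Fin n => ν) ∂ν := by
  have mp := (measurePreserving_piFinSuccAbove (fun _ : Fin (n + 1) => ν) 0).symm
  rw [← mp.lintegral_comp hF, lintegral_prod]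
  · congr 1
    funext x
    congr 1
    funext y
    congr 1
    exact Fin.insertNth_zero' x y
  · exact (hF.comp (MeasurableEquiv.measurable _)).aemeasurable

theorem lintegral_fin3 (ν : Measure Y) [IsProbabilityMeasure ν]
    {F : (Fin 3 → Y) → ENNReal} (hF : Measurable F) :
    ∫⁻ y, F y ∂(Measure.pi fun _ => ν) = ∫⁻ a, ∫⁻ b, ∫⁻ c, F ![a, b, c] ∂ν ∂ν ∂ν := by
  rw [lintegral_succ ν hF]
  congr 1
  funext a
  rw [lintegral_succ ν (F := fun y => F (Fin.cons a y)) (hF.comp (by
    rw [measurable_pi_iff]
    intro i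
    refine Fin.cases ?_ ?_ i
    · exact measurable_const
    · intro i
      exact measurable_pi_apply i))]
  congr 1
  funext b
  rw [lintegral_succ ν (F := fun y => F (Fin.cons a (Fin.cons b y))) (hF.comp (by
    rw [measurable_pi_iff]
    intro i
    refine Fin.cases ?_ ?_ i
    · exact measurable_const
    · intro i
      refine Fin.cases ?_ ?_ i
      · exact measurable_const
      · intro i
        exact measurable_pi_apply i))]
  congr 1
  funext c
  rw [lintegral_unique]
  simp
  congr 1

/-- Cauchy-Schwarz for the constant function one. -/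
theorem sq_lintegral_le (μ : Measure X) [IsProbabilityMeasure μ] {f : X → ENNReal}
    (hf : Measurable f) : (∫⁻ x, f x ∂μ) ^ 2 ≤ ∫⁻ x, f x ^ 2 ∂μ := by
  have h := ENNReal.lintegral_mul_le_Lp_mul_Lq μ (Real.HolderConjugate.two_two)
    hf.aemeasurable (aemeasurable_const (b := (1 : ENNReal)))
  simp only [Pi.mul_apply, mul_one, lintegral_const, measure_univ,
    ENNReal.rpow_ofNat, one_pow, ENNReal.one_rpow] at h
  have h2 := pow_le_pow_left' h 2
  refine h2.trans ?_
  rw [← ENNReal.rpow_natCast, ← ENNReal.rpow_mul]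
  norm_num

section

variable (μ : Measure X) (ν : Measure Y) [IsProbabilityMeasure μ] [IsProbabilityMeasure ν]
  (w : X → Y → ENNReal)

/-- the codegree kernel -/
noncomputable def kk (a b : Y) : ENNReal := ∫⁻ x, w x a * w x b ∂μ

variable {w} (hw : Measurable fun z : X × Y => w z.1 z.2)

include hw

theorem meas_left (x : X) : Measurable (w x) := hw.comp (measurable_const.prodMk measurable_id)

theorem meas_right (y : Y) : Measurable fun x => w x y :=
  hw.comp (measurable_id.prodMk measurable_const)

theorem meas_kk : Measurable fun z : Y × Y => kk μ w z.1 z.2 := by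
  unfold kk
  apply Measurable.lintegral_prod_right' (f := fun q : (Y × Y) × X => w q.2 q.1.1 * w q.2 q.1.2)
  exact (hw.comp (measurable_snd.prodMk (measurable_fst.comp measurable_fst))).mul
    (hw.comp (measurable_snd.prodMk (measurable_snd.comp measurable_fst)))

theorem c6_inner (a : Y) : ∫⁻ b, ∫⁻ c, kk μ w a b * kk μ w b c * kk μ w a c ∂ν ∂ν
    = ∫⁻ x, (∫⁻ b, kk μ w a b * w x b ∂ν) ^ 2 ∂μ := by
  have hu : Measurable fun b => kk μ w a b :=
    (meas_kk μ hw).comp (measurable_const.prodMk measurable_id)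
  have e1 : ∀ b c, kk μ w a b * kk μ w b c * kk μ w a c
      = ∫⁻ x, (kk μ w a b * w x b) * (kk μ w a c * w x c) ∂μ := by
    intro b c
    have : ∀ x, (kk μ w a b * w x b) * (kk μ w a c * w x c)
        = (kk μ w a b * kk μ w a c) * (w x b * w x c) := fun x => by ring
    simp only [this]
    rw [lintegral_const_mul _ (show Measurable fun x => w x b * w x c from
      (meas_right hw b).mul (meas_right hw c))]
    change kk μ w a b * kk μ w b c * kk μ w a c = kk μ w a b * kk μ w a c * kk μ w b c
    ring
  simp only [e1]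
  have hG : Measurable fun q : Y × Y × X =>
      (kk μ w a q.1 * w q.2.2 q.1) * (kk μ w a q.2.1 * w q.2.2 q.2.1) := by
    refine Measurable.mul (Measurable.mul ?_ ?_) (Measurable.mul ?_ ?_)
    · exact hu.comp measurable_fst
    · exact hw.comp (((measurable_snd.comp measurable_snd)).prodMk measurable_fst)
    · exact hu.comp (measurable_fst.comp measurable_snd)
    · exact hw.comp ((measurable_snd.comp measurable_snd).prodMk
        (measurable_fst.comp measurable_snd))
  have e2 : ∀ b, ∫⁻ c, ∫⁻ x, (kk μ w a b * w x b) * (kk μ w a c * w x c) ∂μ ∂ν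
      = ∫⁻ x, ∫⁻ c, (kk μ w a b * w x b) * (kk μ w a c * w x c) ∂ν ∂μ := by
    intro b
    apply lintegral_lintegral_swap
    apply Measurable.aemeasurable
    exact hG.comp (measurable_const.prodMk measurable_id)
  simp only [e2]
  have e3 : ∀ x b, ∫⁻ c, (kk μ w a b * w x b) * (kk μ w a c * w x c) ∂ν
      = (kk μ w a b * w x b) * ∫⁻ c, kk μ w a c * w x c ∂ν := by
    intro x b
    rw [lintegral_const_mul _ (show Measurable fun c => kk μ w a c * w x c from
      hu.mul (meas_left hw x))]
  simp only [e3]
  rw [lintegral_lintegral_swap]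
  · congr 1
    funext x
    rw [lintegral_mul_const _ (show Measurable fun c => kk μ w a c * w x c from
      hu.mul (meas_left hw x)), pow_two]
  · apply Measurable.aemeasurable
    refine Measurable.mul ((hu.comp measurable_fst).mul
      (hw.comp (measurable_snd.prodMk measurable_fst))) ?_
    apply Measurable.lintegral_prod_right' (f := fun q : (Y × X) × Y =>
      kk μ w a q.2 * w q.1.2 q.2)
    exact (hu.comp measurable_snd).mul
      (hw.comp ((measurable_snd.comp measurable_fst).prodMk measurable_snd))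

theorem c6_bound {p : ENNReal} (h1 : ∀ᵐ x ∂μ, ∫⁻ y, w x y ∂ν = p)
    (h2 : ∀ᵐ y ∂ν, ∫⁻ x, w x y ∂μ = p) :
    p ^ 6 ≤ ∫⁻ a, ∫⁻ b, ∫⁻ c, kk μ w a b * kk μ w b c * kk μ w a c ∂ν ∂ν ∂ν := by
  have key : ∀ᵐ a ∂ν, p ^ 6 ≤ ∫⁻ b, ∫⁻ c, kk μ w a b * kk μ w b c * kk μ w a c ∂ν ∂ν := by
    filter_upwards [h2] with a ha
    have hu : Measurable fun b => kk μ w a b :=
      (meas_kk μ hw).comp (measurable_const.prodMk measurable_id)
    rw [c6_inner μ ν hw a]
    have hm : Measurable fun x => ∫⁻ b, kk μ w a b * w x b ∂ν := by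
      apply Measurable.lintegral_prod_right' (f := fun q : X × Y => kk μ w a q.2 * w q.1 q.2)
      exact (hu.comp measurable_snd).mul hw
    refine le_trans ?_ (sq_lintegral_le μ hm)
    have e1 : ∫⁻ x, ∫⁻ b, kk μ w a b * w x b ∂ν ∂μ = p * p * p := by
      rw [lintegral_lintegral_swap]
      · have e2 : ∫⁻ b, ∫⁻ x, kk μ w a b * w x b ∂μ ∂ν = ∫⁻ b, kk μ w a b * p ∂ν := by
          apply lintegral_congr_ae
          filter_upwards [h2] with b hb
          rw [lintegral_const_mul _ (meas_right hw b), hb]
        rw [e2, lintegral_mul_const _ hu]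
        congr 1
        unfold kk
        rw [lintegral_lintegral_swap]
        · have e3 : ∫⁻ x, ∫⁻ b, w x a * w x b ∂ν ∂μ = ∫⁻ x, w x a * p ∂μ := by
            apply lintegral_congr_ae
            filter_upwards [h1] with x hx
            rw [lintegral_const_mul _ (meas_left hw x), hx]
          rw [e3, lintegral_mul_const _ (meas_right hw a), ha]
        · apply Measurable.aemeasurable
          exact (hw.comp (measurable_snd.prodMk measurable_const)).mul
            (hw.comp (measurable_snd.prodMk measurable_fst))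
      · apply Measurable.aemeasurable
        exact (hu.comp measurable_snd).mul hw
    rw [e1]
    apply le_of_eq
    ring
  calc p ^ 6 = ∫⁻ _, p ^ 6 ∂ν := by rw [lintegral_const, measure_univ, mul_one]
    _ ≤ _ := lintegral_mono_ae key

end

end Pool.Agent.MP_3a8b9a_co
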