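import Pool.Agent.MP_3a8b9a_co.Defs

open MeasureTheory

namespace Pool.Agent.MP_3a8b9a_co

variable {X Y : Type} [MeasurableSpace X] [MeasurableSpace Y]

theorem piCongrLeft_apply' {V V' : Type} (e : V ≃ V') (x : V → X) (v : V) :
    (MeasurableEquiv.piCongrLeft (fun _ => X) e) x (e v) = x v := by
  rw [MeasurableEquiv.coe_piCongrLeft]
  exact Equiv.piCongrLeft_apply_apply (fun _ => X) e x v

/-- Densities are invariant under isomorphisms. -/
theorem density_iso {G G' : Bigraph} (e₁ : G.V₁ ≃ G'.V₁) (e₂ : G.V₂ ≃ G'.V₂)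
    (h : ∀ a b, (a, b) ∈ G.E ↔ (e₁ a, e₂ b) ∈ G'.E) (μ : Measure X) (ν : Measure Y)
    [IsProbabilityMeasure μ] [IsProbabilityMeasure ν] (W : X → Y → ℝ) :
    density G μ ν W = density G' μ ν W := by
  have m1 := measurePreserving_piCongrLeft (fun _ : G'.V₁ => μ) e₁
  have m2 := measurePreserving_piCongrLeft (fun _ : G'.V₂ => ν) e₂
  have m := m1.prod m2
  have hemb : MeasurableEmbedding (Prod.map (MeasurableEquiv.piCongrLeft (fun _ : G'.V₁ => X) e₁)
      (MeasurableEquiv.piCongrLeft (fun _ : G'.V₂ => Y) e₂)) :=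
    ((MeasurableEquiv.piCongrLeft (fun _ : G'.V₁ => X) e₁).prodCongr
      (MeasurableEquiv.piCongrLeft (fun _ : G'.V₂ => Y) e₂)).measurableEmbedding
  rw [density, density, ← m.integral_comp hemb]
  congr 1
  funext z
  refine Finset.prod_equiv (e₁.prodCongr e₂) ?_ ?_
  · rintro ⟨a, b⟩
    exact h a b
  · rintro ⟨a, b⟩ -
    simp only [Prod.map_fst, Prod.map_snd, Equiv.prodCongr_apply]
    rw [piCongrLeft_apply', piCongrLeft_apply']

theorem density_nonneg (G : Bigraph) (μ : Measure X) (ν : Measure Y) {W : X → Y → ℝ}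
    (hW : ∀ x y, 0 ≤ W x y) : 0 ≤ density G μ ν W :=
  integral_nonneg fun _ => Finset.prod_nonneg fun _ _ => hW _ _

theorem density_of_empty {G : Bigraph} (h : G.E = ∅) (μ : Measure X) (ν : Measure Y)
    [IsProbabilityMeasure μ] [IsProbabilityMeasure ν] (W : X → Y → ℝ) :
    density G μ ν W = 1 := by
  rw [density, h]
  simp

/-- The density as an iterated integral: given the values on `V₂`, the values on `V₁` are
independent. -/
theorem density_eq_integral (G : Bigraph) (μ : Measure X) (ν : Measure Y)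
    [IsProbabilityMeasure μ] [IsProbabilityMeasure ν] {W : X → Y → ℝ} (hW : IsBigraphon W) :
    density G μ ν W = ∫ y : G.V₂ → Y, ∏ a : G.V₁,
      ∫ x : X, ∏ b ∈ Finset.univ.filter (fun b => (a, b) ∈ G.E), W x (y b) ∂μ
        ∂(Measure.pi fun _ => ν) := by
  obtain ⟨C, hC⟩ := hW.bounded
  have hmeas : Measurable fun z : (G.V₁ → X) × (G.V₂ → Y) =>
      ∏ e ∈ G.E, W (z.1 e.1) (z.2 e.2) := by
    apply Finset.measurable_prod
    intro e _
    have h : Measurable fun z : (G.V₁ → X) × (G.V₂ → Y) => (z.1 e.1, z.2 e.2) := by fun_prop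
    exact hW.measurable.comp h
  have hint : Integrable (fun z : (G.V₁ → X) × (G.V₂ → Y) =>
      ∏ e ∈ G.E, W (z.1 e.1) (z.2 e.2))
      ((Measure.pi fun _ => μ).prod (Measure.pi fun _ => ν)) := by
    refine Integrable.of_bound hmeas.aestronglyMeasurable (C ^ G.E.card) ?_
    refine Filter.Eventually.of_forall fun z => ?_
    rw [Real.norm_eq_abs, abs_of_nonneg (Finset.prod_nonneg fun _ _ => hW.nonneg _ _)]
    calc ∏ e ∈ G.E, W (z.1 e.1) (z.2 e.2) ≤ ∏ _e ∈ G.E, C :=
          Finset.prod_le_prod (fun _ _ => hW.nonneg _ _) fun _ _ => hC _ _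
      _ = C ^ G.E.card := Finset.prod_const _
  rw [density, integral_prod_symm _ hint]
  congr 1
  funext y
  rw [← integral_fintype_prod_eq_prod]
  congr 1
  funext x
  rw [← Finset.prod_fiberwise_of_maps_to (s := G.E) (t := Finset.univ) (g := Prod.fst)
    (fun _ _ => Finset.mem_univ _)]
  refine Finset.prod_congr rfl fun a _ => ?_
  refine Finset.prod_bij' (i := fun e _ => e.2) (j := fun b _ => (a, b)) ?_ ?_ ?_ ?_ ?_
  · rintro ⟨a', b⟩ h
    simp only [Finset.mem_filter] at h
    obtain ⟨h1, h2⟩ := h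
    subst h2
    simpa using h1
  · intro b h
    simpa using h
  · rintro ⟨a', b⟩ h
    simp only [Finset.mem_filter] at h
    obtain ⟨h1, h2⟩ := h
    subst h2
    rfl
  · intro b _
    rfl
  · rintro ⟨a', b⟩ h
    simp only [Finset.mem_filter] at h
    obtain ⟨h1, h2⟩ := h
    subst h2
    rfl

end Pool.Agent.MP_3a8b9a_co
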