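import Pool.Agent.MP_3a8b9a_co.Chain

open MeasureTheory

namespace Pool.Agent.MP_3a8b9a_co

/-! ### The numerical example -/

/-- the point masses -/
def mq : Fin 4 → ℚ := ![1/4196386, 1057/4196386, 1049600/4196386, 3145728/4196386]

/-- the values of the bigraphon -/
def Wq : Fin 4 → Fin 4 → ℚ := ![![0, 4196386/1057, 0, 0],
    ![4196386/1057, 134284352/1117249, 4196386/1083425, 0],
    ![0, 4196386/1083425, 0, 2098193/1574400],
    ![0, 0, 2098193/1574400, 2098193/2359296]]

/-- codegrees -/
def Kt : Fin 4 → Fin 4 → ℚ := ![![4196386/1057, 134284352/1117249, 4196386/1083425, 0],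
    ![134284352/1117249, 13493030169698/1210455497825, 134284352/1145180225, 4196386/3250275],
    ![4196386/1083425, 134284352/1145180225, 889633832/666306375, 2098193/2361600],
    ![0, 4196386/3250275, 2098193/2361600, 3762060049/3627417600]]

/-- the densities of paths of length three -/
def Pt : Fin 4 → Fin 4 → ℚ := ![![134284352/1117249, 13493030169698/1210455497825, 134284352/1145180225, 4196386/3250275],
    ![13493030169698/1210455497825, 722609075001472/1279451461201025, 968281789222766/744430131162375, 1854802612/2061324405],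
    ![134284352/1145180225, 968281789222766/744430131162375, 9378024683396/10564287575625, 796266341693/767584944000],
    ![4196386/3250275, 1854802612/2061324405, 796266341693/767584944000, 5373472273/5441126400]]

theorem mq_nonneg : ∀ i, 0 ≤ mq i := by decide +kernel

theorem mq_sum : ∑ i, mq i = 1 := by decide +kernel

theorem Wq_nonneg : ∀ i j, 0 ≤ Wq i j := by decide +kernel

theorem Wq_le : ∀ i j, Wq i j ≤ 4196386 := by decide +kernel

theorem Wq_left : ∀ i, ∑ j, mq j * Wq i j = 1 := by decide +kernel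

theorem Wq_right : ∀ j, ∑ i, mq i * Wq i j = 1 := by decide +kernel

theorem Kt_eq : ∀ i j, ∑ k, mq k * (Wq k i * Wq k j) = Kt i j := by decide +kernel

theorem Kt_eq' : ∀ i j, ∑ k, mq k * (Wq i k * Wq j k) = Kt i j := by decide +kernel

theorem Pt_eq : ∀ x y, ∑ a, mq a * Kt x a * Wq a y = Pt x y := by decide +kernel

theorem final_ineq : ∑ t : (Fin 4 × Fin 4) × (Fin 4 × Fin 4),
      (mq t.1.1 * mq t.1.2 * mq t.2.1 * mq t.2.2) * (Wq t.1.1 t.2.2 * Wq t.1.2 t.2.1)
        * ((Kt t.2.2 t.2.1 * Kt t.1.1 t.1.2) * (Pt t.1.1 t.2.1 ^ 4 * Pt t.1.2 t.2.2 ^ 2))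
    < ∑ t : Fin 4 × Fin 4, (mq t.1 * mq t.2) * Pt t.1 t.2 ^ 6 := by decide +kernel

end Pool.Agent.MP_3a8b9a_co
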